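import Pool.Agent.Helper25.EN.CA
import Pool.Agent.Helper25.EN.CB
import Pool.Agent.Helper25.TY.SRoot

/-!
MP_8ee768_co, project TH-Y': the labelled tables with `MM ≤ 4` from the counts of the four runs.
-/

set_option autoImplicit false

namespace Pool.Agent.Helper25.EN

open Finset
open Pool.Agent.Helper89.CV (OddCover ofMask)
open Pool.Agent.Helper97.CV
open Pool.Agent.Helper79.CV
open Pool.Agent.Helper82.TY (below)
open Pool.Agent.Helper67.TY
open Pool.Agent.Helper25.TY
open Pool.Agent.Helper16.TY (eF)
open Pool.Agent.Gen.TY.EN (a0_0 b0_0 enA enB)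

theorem surjA : ∀ r < runsA4.length, surjOK autA (prevs runsA4 r) = true := by decide +kernel

theorem surjB : ∀ r < runsB4.length, surjOK autB (prevs runsB4 r) = true := by decide +kernel

/-- the families with pair link `T` and `MM ≤ 4` are the entries `l` -/
def LabE (T : ℕ) (l : List ℕ) : Prop :=
  ∀ D : Finset (Finset (Fin 13)), OddFam 3 (below 12) D → link D 11 = fam 11 3 T →
    2 * D.card ≤ 114 + 4 → ∃ e ∈ l, D = eF T e

theorem repA_lt' : repA < 2 ^ 165 := by decide +kernel

theorem repB_lt' : repB < 2 ^ 165 := by decide +kernel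

/-- the two counts with pair link REP(A) -/
structure CountA : Prop where
  c0 : CountRun repA 576 [] 4 2299
  c1 : CountRun repA 33 [576, 640, 768, 1088, 1152, 1280] 4 3348

/-- the two counts with pair link REP(B) -/
structure CountB : Prop where
  c0 : CountRun repB 520 [] 4 2501
  c1 : CountRun repB 17 [520, 528, 544, 576, 640, 768, 1032, 1040, 1056, 1088, 1152, 1280] 4 3050

theorem countA_all (h : CountA) (r : ℕ) (hr : r < runsA4.length) :
    CountRun repA (runsA4[r]).1 (prevs runsA4 r) 4 (KA r) := by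
  match r, hr with
  | 0, _ => exact h.c0
  | 1, _ => exact h.c1
  | n + 2, hr => exact absurd hr (by simp [runsA4])

theorem countB_all (h : CountB) (r : ℕ) (hr : r < runsB4.length) :
    CountRun repB (runsB4[r]).1 (prevs runsB4 r) 4 (KB r) := by
  match r, hr with
  | 0, _ => exact h.c0
  | 1, _ => exact h.c1
  | n + 2, hr => exact absurd hr (by simp [runsB4])

theorem enA_eq : allE cA0 ++ allE cA2 ++ allE cA4 = enA.flatten := by
  simp only [allE, cA0, cA2, cA4, enA, List.map_cons, List.map_nil, List.flatten_cons,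
    List.flatten_nil, List.append_nil, List.append_assoc]

theorem enB_eq : allE cB0 ++ allE cB2 ++ allE cB4 = enB.flatten := by
  simp only [allE, cB0, cB2, cB4, enB, List.map_cons, List.map_nil, List.flatten_cons,
    List.flatten_nil, List.append_nil, List.append_assoc]

theorem allE_A0 : allE cA0 = a0_0 := by
  simp only [allE, cA0, List.map_cons, List.map_nil, List.flatten_cons, List.flatten_nil,
    List.append_nil]

theorem allE_B0 : allE cB0 = b0_0 := by
  simp only [allE, cB0, List.map_cons, List.map_nil, List.flatten_cons, List.flatten_nil,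
    List.append_nil]

theorem lab_A (h : CountA) {D : Finset (Finset (Fin 13))} (hD : OddFam 3 (below 12) D)
    (hDT : link D 11 = fam 11 3 repA) (hc : 2 * D.card ≤ 114 + 4) :
    ∃ e ∈ allE cA0 ++ allE cA2 ++ allE cA4, D = eF repA e :=
  table_four repA_lt' autA_ok runsA4_ok coverA4 surjA (countA_all h) tabA0 tabA2 tabA4 cntA
    hD hDT hc

theorem lab_B (h : CountB) {D : Finset (Finset (Fin 13))} (hD : OddFam 3 (below 12) D)
    (hDT : link D 11 = fam 11 3 repB) (hc : 2 * D.card ≤ 114 + 4) :
    ∃ e ∈ allE cB0 ++ allE cB2 ++ allE cB4, D = eF repB e :=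
  table_four repB_lt' autB_ok runsB4_ok coverB4 surjB (countB_all h) tabB0 tabB2 tabB4 cntB
    hD hDT hc

/-- **all entries with pair link REP(A)** -/
theorem labA (h : CountA) : LabE repA enA.flatten := by
  intro D hD hDT hc
  rw [← enA_eq]
  exact lab_A h hD hDT hc

/-- **all entries with pair link REP(B)** -/
theorem labB (h : CountB) : LabE repB enB.flatten := by
  intro D hD hDT hc
  rw [← enB_eq]
  exact lab_B h hD hDT hc

theorem tabE_A (h : CountA) :
    TabE repA 0 (allE cA0) ∧ TabE repA 2 (allE cA2) ∧ TabE repA 4 (allE cA4) :=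
  tabE_of repA_lt' tabA0 tabA2 tabA4 fun _ hD hDT hc => lab_A h hD hDT hc

theorem tabE_B (h : CountB) :
    TabE repB 0 (allE cB0) ∧ TabE repB 2 (allE cB2) ∧ TabE repB 4 (allE cB4) :=
  tabE_of repB_lt' tabB0 tabB2 tabB4 fun _ hD hDT hc => lab_B h hD hDT hc

/-- **the tables in the form of the linkage** -/
theorem tabOK_A (h : CountA) : TableOK repA 0 (Ex 0) (famS (allE cA0)) ∧
    TableOK repA 2 (Ex 2) (famS (allE cA2)) ∧ TableOK repA 4 (Ex 4) (famS (allE cA4)) ∧
    TableOK repA 4 (fun _ => True) (famS enA.flatten) := by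
  rw [← enA_eq]
  exact tables_of repA_lt' tabA0 tabA2 tabA4 fun _ hD hDT hc => lab_A h hD hDT hc

theorem tabOK_B (h : CountB) : TableOK repB 0 (Ex 0) (famS (allE cB0)) ∧
    TableOK repB 2 (Ex 2) (famS (allE cB2)) ∧ TableOK repB 4 (Ex 4) (famS (allE cB4)) ∧
    TableOK repB 4 (fun _ => True) (famS enB.flatten) := by
  rw [← enB_eq]
  exact tables_of repB_lt' tabB0 tabB2 tabB4 fun _ hD hDT hc => lab_B h hD hDT hc

end Pool.Agent.Helper25.EN
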