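import Pool.Agent.Helper25.EN.Tab
import Pool.Agent.Helper25.EN.WA
import Pool.Agent.Helper25.EN.WB
import Pool.Agent.Helper25.TY.Keep
import Pool.Agent.Helper49.TY.FrameE

/-!
MP_8ee768_co, project TH-Y': the labelled tables and the reduced labelled tables in the form of the
stages E and B1a (`Helper49.TY.TabE`).
-/

set_option autoImplicit false
set_option maxRecDepth 100000

namespace Pool.Agent.Helper25.EN

open Pool.Agent.Helper25.TY
open Pool.Agent.Gen.TY.EN (a0_0 a2_0 a2_1 a4_0 a4_1 a4_2 a4_3 a4_4 a4_5 a4_6 a4_7 a4_8 a4_9 a4_10 a4_11 a4_12 a4_13 a4_14 a4_15 a4_16 a4_17 a4_18 a4_19 a4_20 a4_21 b0_0 b2_0 b2_1 b4_0 b4_1 b4_2 b4_3 b4_4 b4_5 b4_6 b4_7 b4_8 b4_9 b4_10 b4_11 b4_12 b4_13 b4_14 b4_15 b4_16 b4_17 b4_18 b4_19 b4_20)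
open Pool.Agent.Helper67.TY (repA repB)
open Pool.Agent.Helper49.TY (Size And2)

theorem kp_a0_0 : keepChk repA a0_0 wa0_0 = true := by decide +kernel

theorem kp_a2_0 : keepChk repA a2_0 wa2_0 = true := by decide +kernel

theorem kp_a2_1 : keepChk repA a2_1 wa2_1 = true := by decide +kernel

theorem kp_a4_0 : keepChk repA a4_0 wa4_0 = true := by decide +kernel

theorem kp_a4_1 : keepChk repA a4_1 wa4_1 = true := by decide +kernel

theorem kp_a4_2 : keepChk repA a4_2 wa4_2 = true := by decide +kernel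

theorem kp_a4_3 : keepChk repA a4_3 wa4_3 = true := by decide +kernel

theorem kp_a4_4 : keepChk repA a4_4 wa4_4 = true := by decide +kernel

theorem kp_a4_5 : keepChk repA a4_5 wa4_5 = true := by decide +kernel

theorem kp_a4_6 : keepChk repA a4_6 wa4_6 = true := by decide +kernel

theorem kp_a4_7 : keepChk repA a4_7 wa4_7 = true := by decide +kernel

theorem kp_a4_8 : keepChk repA a4_8 wa4_8 = true := by decide +kernel

theorem kp_a4_9 : keepChk repA a4_9 wa4_9 = true := by decide +kernel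

theorem kp_a4_10 : keepChk repA a4_10 wa4_10 = true := by decide +kernel

theorem kp_a4_11 : keepChk repA a4_11 wa4_11 = true := by decide +kernel

theorem kp_a4_12 : keepChk repA a4_12 wa4_12 = true := by decide +kernel

theorem kp_a4_13 : keepChk repA a4_13 wa4_13 = true := by decide +kernel

theorem kp_a4_14 : keepChk repA a4_14 wa4_14 = true := by decide +kernel

theorem kp_a4_15 : keepChk repA a4_15 wa4_15 = true := by decide +kernel

theorem kp_a4_16 : keepChk repA a4_16 wa4_16 = true := by decide +kernel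

theorem kp_a4_17 : keepChk repA a4_17 wa4_17 = true := by decide +kernel

theorem kp_a4_18 : keepChk repA a4_18 wa4_18 = true := by decide +kernel

theorem kp_a4_19 : keepChk repA a4_19 wa4_19 = true := by decide +kernel

theorem kp_a4_20 : keepChk repA a4_20 wa4_20 = true := by decide +kernel

theorem kp_a4_21 : keepChk repA a4_21 wa4_21 = true := by decide +kernel

/-- the chunks with `MM = 0` and the certificates -/
def kA0 : List (List ℕ × List ℕ) := [
  (a0_0, wa0_0)]

/-- the reduced entries with `MM = 0` -/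
def redA0 : List ℕ := kRed kA0

theorem keepA0 : KeepP repA kA0 :=
  ⟨kp_a0_0, trivial⟩

theorem kAll_A0 : allE cA0 = kAll kA0 := by
  simp only [allE, cA0, kAll, kA0, List.map_cons, List.map_nil]

/-- all entries with `MM = 0` -/
theorem tabA0_E (h : CountA) : Pool.Agent.Helper49.TY.TabE repA (Size 0) (allE cA0) := by
  intro D hD hDT hx
  obtain ⟨e, he, -, h1⟩ := (tabE_A h).1 D hD hDT hx
  exact ⟨e, he, h1⟩

/-- the reduced entries with `MM = 0` -/
theorem redA0_E (h : CountA) :
    Pool.Agent.Helper49.TY.TabE repA (And2 (Size 0) Pool.Agent.Helper49.TY.Red) redA0 := by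
  intro D hD hDT hx
  obtain ⟨e, he, h0, h1⟩ := (tabE_A h).1 D hD hDT hx.1
  refine ⟨e, ?_, h1⟩
  rw [kAll_A0] at he
  refine mem_kRed keepA0 e he ?_
  rw [← h0]
  exact hx.2

/-- the chunks with `MM = 2` and the certificates -/
def kA2 : List (List ℕ × List ℕ) := [
  (a2_0, wa2_0), (a2_1, wa2_1)]

/-- the reduced entries with `MM = 2` -/
def redA2 : List ℕ := kRed kA2

theorem keepA2 : KeepP repA kA2 :=
  ⟨kp_a2_0, kp_a2_1, trivial⟩

theorem kAll_A2 : allE cA2 = kAll kA2 := by
  simp only [allE, cA2, kAll, kA2, List.map_cons, List.map_nil]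

/-- all entries with `MM = 2` -/
theorem tabA2_E (h : CountA) : Pool.Agent.Helper49.TY.TabE repA (Size 2) (allE cA2) := by
  intro D hD hDT hx
  obtain ⟨e, he, -, h1⟩ := (tabE_A h).2.1 D hD hDT hx
  exact ⟨e, he, h1⟩

/-- the reduced entries with `MM = 2` -/
theorem redA2_E (h : CountA) :
    Pool.Agent.Helper49.TY.TabE repA (And2 (Size 2) Pool.Agent.Helper49.TY.Red) redA2 := by
  intro D hD hDT hx
  obtain ⟨e, he, h0, h1⟩ := (tabE_A h).2.1 D hD hDT hx.1
  refine ⟨e, ?_, h1⟩
  rw [kAll_A2] at he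
  refine mem_kRed keepA2 e he ?_
  rw [← h0]
  exact hx.2

/-- the chunks with `MM = 4` and the certificates -/
def kA4 : List (List ℕ × List ℕ) := [
  (a4_0, wa4_0), (a4_1, wa4_1), (a4_2, wa4_2), (a4_3, wa4_3), (a4_4, wa4_4), (a4_5, wa4_5), (a4_6, wa4_6), (a4_7, wa4_7), (a4_8, wa4_8), (a4_9, wa4_9), (a4_10, wa4_10), (a4_11, wa4_11), (a4_12, wa4_12), (a4_13, wa4_13), (a4_14, wa4_14), (a4_15, wa4_15), (a4_16, wa4_16), (a4_17, wa4_17), (a4_18, wa4_18), (a4_19, wa4_19), (a4_20, wa4_20), (a4_21, wa4_21)]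

/-- the reduced entries with `MM = 4` -/
def redA4 : List ℕ := kRed kA4

theorem keepA4 : KeepP repA kA4 :=
  ⟨kp_a4_0, kp_a4_1, kp_a4_2, kp_a4_3, kp_a4_4, kp_a4_5, kp_a4_6, kp_a4_7, kp_a4_8, kp_a4_9, kp_a4_10, kp_a4_11, kp_a4_12, kp_a4_13, kp_a4_14, kp_a4_15, kp_a4_16, kp_a4_17, kp_a4_18, kp_a4_19, kp_a4_20, kp_a4_21, trivial⟩

theorem kAll_A4 : allE cA4 = kAll kA4 := by
  simp only [allE, cA4, kAll, kA4, List.map_cons, List.map_nil]

/-- all entries with `MM = 4` -/
theorem tabA4_E (h : CountA) : Pool.Agent.Helper49.TY.TabE repA (Size 4) (allE cA4) := by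
  intro D hD hDT hx
  obtain ⟨e, he, -, h1⟩ := (tabE_A h).2.2 D hD hDT hx
  exact ⟨e, he, h1⟩

/-- the reduced entries with `MM = 4` -/
theorem redA4_E (h : CountA) :
    Pool.Agent.Helper49.TY.TabE repA (And2 (Size 4) Pool.Agent.Helper49.TY.Red) redA4 := by
  intro D hD hDT hx
  obtain ⟨e, he, h0, h1⟩ := (tabE_A h).2.2 D hD hDT hx.1
  refine ⟨e, ?_, h1⟩
  rw [kAll_A4] at he
  refine mem_kRed keepA4 e he ?_
  rw [← h0]
  exact hx.2

theorem kp_b0_0 : keepChk repB b0_0 wb0_0 = true := by decide +kernel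

theorem kp_b2_0 : keepChk repB b2_0 wb2_0 = true := by decide +kernel

theorem kp_b2_1 : keepChk repB b2_1 wb2_1 = true := by decide +kernel

theorem kp_b4_0 : keepChk repB b4_0 wb4_0 = true := by decide +kernel

theorem kp_b4_1 : keepChk repB b4_1 wb4_1 = true := by decide +kernel

theorem kp_b4_2 : keepChk repB b4_2 wb4_2 = true := by decide +kernel

theorem kp_b4_3 : keepChk repB b4_3 wb4_3 = true := by decide +kernel

theorem kp_b4_4 : keepChk repB b4_4 wb4_4 = true := by decide +kernel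

theorem kp_b4_5 : keepChk repB b4_5 wb4_5 = true := by decide +kernel

theorem kp_b4_6 : keepChk repB b4_6 wb4_6 = true := by decide +kernel

theorem kp_b4_7 : keepChk repB b4_7 wb4_7 = true := by decide +kernel

theorem kp_b4_8 : keepChk repB b4_8 wb4_8 = true := by decide +kernel

theorem kp_b4_9 : keepChk repB b4_9 wb4_9 = true := by decide +kernel

theorem kp_b4_10 : keepChk repB b4_10 wb4_10 = true := by decide +kernel

theorem kp_b4_11 : keepChk repB b4_11 wb4_11 = true := by decide +kernel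

theorem kp_b4_12 : keepChk repB b4_12 wb4_12 = true := by decide +kernel

theorem kp_b4_13 : keepChk repB b4_13 wb4_13 = true := by decide +kernel

theorem kp_b4_14 : keepChk repB b4_14 wb4_14 = true := by decide +kernel

theorem kp_b4_15 : keepChk repB b4_15 wb4_15 = true := by decide +kernel

theorem kp_b4_16 : keepChk repB b4_16 wb4_16 = true := by decide +kernel

theorem kp_b4_17 : keepChk repB b4_17 wb4_17 = true := by decide +kernel

theorem kp_b4_18 : keepChk repB b4_18 wb4_18 = true := by decide +kernel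

theorem kp_b4_19 : keepChk repB b4_19 wb4_19 = true := by decide +kernel

theorem kp_b4_20 : keepChk repB b4_20 wb4_20 = true := by decide +kernel

/-- the chunks with `MM = 0` and the certificates -/
def kB0 : List (List ℕ × List ℕ) := [
  (b0_0, wb0_0)]

/-- the reduced entries with `MM = 0` -/
def redB0 : List ℕ := kRed kB0

theorem keepB0 : KeepP repB kB0 :=
  ⟨kp_b0_0, trivial⟩

theorem kAll_B0 : allE cB0 = kAll kB0 := by
  simp only [allE, cB0, kAll, kB0, List.map_cons, List.map_nil]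

/-- all entries with `MM = 0` -/
theorem tabB0_E (h : CountB) : Pool.Agent.Helper49.TY.TabE repB (Size 0) (allE cB0) := by
  intro D hD hDT hx
  obtain ⟨e, he, -, h1⟩ := (tabE_B h).1 D hD hDT hx
  exact ⟨e, he, h1⟩

/-- the reduced entries with `MM = 0` -/
theorem redB0_E (h : CountB) :
    Pool.Agent.Helper49.TY.TabE repB (And2 (Size 0) Pool.Agent.Helper49.TY.Red) redB0 := by
  intro D hD hDT hx
  obtain ⟨e, he, h0, h1⟩ := (tabE_B h).1 D hD hDT hx.1
  refine ⟨e, ?_, h1⟩
  rw [kAll_B0] at he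
  refine mem_kRed keepB0 e he ?_
  rw [← h0]
  exact hx.2

/-- the chunks with `MM = 2` and the certificates -/
def kB2 : List (List ℕ × List ℕ) := [
  (b2_0, wb2_0), (b2_1, wb2_1)]

/-- the reduced entries with `MM = 2` -/
def redB2 : List ℕ := kRed kB2

theorem keepB2 : KeepP repB kB2 :=
  ⟨kp_b2_0, kp_b2_1, trivial⟩

theorem kAll_B2 : allE cB2 = kAll kB2 := by
  simp only [allE, cB2, kAll, kB2, List.map_cons, List.map_nil]

/-- all entries with `MM = 2` -/
theorem tabB2_E (h : CountB) : Pool.Agent.Helper49.TY.TabE repB (Size 2) (allE cB2) := by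
  intro D hD hDT hx
  obtain ⟨e, he, -, h1⟩ := (tabE_B h).2.1 D hD hDT hx
  exact ⟨e, he, h1⟩

/-- the reduced entries with `MM = 2` -/
theorem redB2_E (h : CountB) :
    Pool.Agent.Helper49.TY.TabE repB (And2 (Size 2) Pool.Agent.Helper49.TY.Red) redB2 := by
  intro D hD hDT hx
  obtain ⟨e, he, h0, h1⟩ := (tabE_B h).2.1 D hD hDT hx.1
  refine ⟨e, ?_, h1⟩
  rw [kAll_B2] at he
  refine mem_kRed keepB2 e he ?_
  rw [← h0]
  exact hx.2

/-- the chunks with `MM = 4` and the certificates -/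
def kB4 : List (List ℕ × List ℕ) := [
  (b4_0, wb4_0), (b4_1, wb4_1), (b4_2, wb4_2), (b4_3, wb4_3), (b4_4, wb4_4), (b4_5, wb4_5), (b4_6, wb4_6), (b4_7, wb4_7), (b4_8, wb4_8), (b4_9, wb4_9), (b4_10, wb4_10), (b4_11, wb4_11), (b4_12, wb4_12), (b4_13, wb4_13), (b4_14, wb4_14), (b4_15, wb4_15), (b4_16, wb4_16), (b4_17, wb4_17), (b4_18, wb4_18), (b4_19, wb4_19), (b4_20, wb4_20)]

/-- the reduced entries with `MM = 4` -/
def redB4 : List ℕ := kRed kB4

theorem keepB4 : KeepP repB kB4 :=
  ⟨kp_b4_0, kp_b4_1, kp_b4_2, kp_b4_3, kp_b4_4, kp_b4_5, kp_b4_6, kp_b4_7, kp_b4_8, kp_b4_9, kp_b4_10, kp_b4_11, kp_b4_12, kp_b4_13, kp_b4_14, kp_b4_15, kp_b4_16, kp_b4_17, kp_b4_18, kp_b4_19, kp_b4_20, trivial⟩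

theorem kAll_B4 : allE cB4 = kAll kB4 := by
  simp only [allE, cB4, kAll, kB4, List.map_cons, List.map_nil]

/-- all entries with `MM = 4` -/
theorem tabB4_E (h : CountB) : Pool.Agent.Helper49.TY.TabE repB (Size 4) (allE cB4) := by
  intro D hD hDT hx
  obtain ⟨e, he, -, h1⟩ := (tabE_B h).2.2 D hD hDT hx
  exact ⟨e, he, h1⟩

/-- the reduced entries with `MM = 4` -/
theorem redB4_E (h : CountB) :
    Pool.Agent.Helper49.TY.TabE repB (And2 (Size 4) Pool.Agent.Helper49.TY.Red) redB4 := by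
  intro D hD hDT hx
  obtain ⟨e, he, h0, h1⟩ := (tabE_B h).2.2 D hD hDT hx.1
  refine ⟨e, ?_, h1⟩
  rw [kAll_B4] at he
  refine mem_kRed keepB4 e he ?_
  rw [← h0]
  exact hx.2

theorem length_redA0 : redA0.length = 67 := by decide +kernel

theorem length_redA2 : redA2.length = 117 := by decide +kernel

theorem length_redA4 : redA4.length = 5864 := by decide +kernel

theorem length_redB0 : redB0.length = 136 := by decide +kernel

theorem length_redB2 : redB2.length = 96 := by decide +kernel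

theorem length_redB4 : redB4.length = 5862 := by decide +kernel

end Pool.Agent.Helper25.EN
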