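import Pool.Agent.Helper25.TY.SChunk
import Pool.Agent.Gen.TY.EN.A
import Pool.Agent.Helper25.EN.ZA

/-!
MP_8ee768_co, project TH-Y': kernel check of the entries with pair link REP(A), part 0.
-/

set_option autoImplicit false
set_option maxRecDepth 100000

namespace Pool.Agent.Helper25.EN

open Pool.Agent.Helper25.TY Pool.Agent.Gen.TY.EN
open Pool.Agent.Helper67.TY (repA)

theorem ok_a0_0 : okChunk repA 57 67 a0_0 za0_0 = true := by decide +kernel

theorem ok_a2_0 : okChunk repA 58 500 a2_0 za2_0 = true := by decide +kernel

theorem ok_a2_1 : okChunk repA 58 89 a2_1 za2_1 = true := by decide +kernel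

theorem ok_a4_0 : okChunk repA 59 500 a4_0 za4_0 = true := by decide +kernel

theorem ok_a4_1 : okChunk repA 59 500 a4_1 za4_1 = true := by decide +kernel

theorem ok_a4_2 : okChunk repA 59 500 a4_2 za4_2 = true := by decide +kernel

end Pool.Agent.Helper25.EN
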