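import Pool.Agent.Helper25.TY.SChunk
import Pool.Agent.Gen.TY.EN.A
import Pool.Agent.Helper25.EN.ZA

/-!
MP_8ee768_co, project TH-Y': kernel check of the entries with pair link REP(A), part 1.
-/

set_option autoImplicit false
set_option maxRecDepth 100000

namespace Pool.Agent.Helper25.EN

open Pool.Agent.Helper25.TY Pool.Agent.Gen.TY.EN
open Pool.Agent.Helper67.TY (repA)

theorem ok_a4_3 : okChunk repA 59 500 a4_3 za4_3 = true := by decide +kernel

theorem ok_a4_4 : okChunk repA 59 500 a4_4 za4_4 = true := by decide +kernel

theorem ok_a4_5 : okChunk repA 59 500 a4_5 za4_5 = true := by decide +kernel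

theorem ok_a4_6 : okChunk repA 59 500 a4_6 za4_6 = true := by decide +kernel

theorem ok_a4_7 : okChunk repA 59 500 a4_7 za4_7 = true := by decide +kernel

theorem ok_a4_8 : okChunk repA 59 500 a4_8 za4_8 = true := by decide +kernel

end Pool.Agent.Helper25.EN
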