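import Pool.Agent.Helper25.TY.SChunk
import Pool.Agent.Gen.TY.EN.A
import Pool.Agent.Helper25.EN.ZA

/-!
MP_8ee768_co, project TH-Y': kernel check of the entries with pair link REP(A), part 3.
-/

set_option autoImplicit false
set_option maxRecDepth 100000

namespace Pool.Agent.Helper25.EN

open Pool.Agent.Helper25.TY Pool.Agent.Gen.TY.EN
open Pool.Agent.Helper67.TY (repA)

theorem ok_a4_15 : okChunk repA 59 500 a4_15 za4_15 = true := by decide +kernel

theorem ok_a4_16 : okChunk repA 59 500 a4_16 za4_16 = true := by decide +kernel

theorem ok_a4_17 : okChunk repA 59 500 a4_17 za4_17 = true := by decide +kernel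

theorem ok_a4_18 : okChunk repA 59 500 a4_18 za4_18 = true := by decide +kernel

theorem ok_a4_19 : okChunk repA 59 500 a4_19 za4_19 = true := by decide +kernel

theorem ok_a4_20 : okChunk repA 59 500 a4_20 za4_20 = true := by decide +kernel

theorem ok_a4_21 : okChunk repA 59 71 a4_21 za4_21 = true := by decide +kernel

end Pool.Agent.Helper25.EN
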