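import Pool.Agent.Helper25.TY.SChunk
import Pool.Agent.Gen.TY.EN.B
import Pool.Agent.Helper25.EN.ZB

/-!
MP_8ee768_co, project TH-Y': kernel check of the entries with pair link REP(B), part 0.
-/

set_option autoImplicit false
set_option maxRecDepth 100000

namespace Pool.Agent.Helper25.EN

open Pool.Agent.Helper25.TY Pool.Agent.Gen.TY.EN
open Pool.Agent.Helper67.TY (repB)

theorem ok_b0_0 : okChunk repB 57 136 b0_0 zb0_0 = true := by decide +kernel

theorem ok_b2_0 : okChunk repB 58 500 b2_0 zb2_0 = true := by decide +kernel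

theorem ok_b2_1 : okChunk repB 58 227 b2_1 zb2_1 = true := by decide +kernel

theorem ok_b4_0 : okChunk repB 59 500 b4_0 zb4_0 = true := by decide +kernel

theorem ok_b4_1 : okChunk repB 59 500 b4_1 zb4_1 = true := by decide +kernel

theorem ok_b4_2 : okChunk repB 59 500 b4_2 zb4_2 = true := by decide +kernel

end Pool.Agent.Helper25.EN
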