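import Pool.Agent.Helper25.TY.SChunk
import Pool.Agent.Gen.TY.EN.B
import Pool.Agent.Helper25.EN.ZB

/-!
MP_8ee768_co, project TH-Y': kernel check of the entries with pair link REP(B), part 1.
-/

set_option autoImplicit false
set_option maxRecDepth 100000

namespace Pool.Agent.Helper25.EN

open Pool.Agent.Helper25.TY Pool.Agent.Gen.TY.EN
open Pool.Agent.Helper67.TY (repB)

theorem ok_b4_3 : okChunk repB 59 500 b4_3 zb4_3 = true := by decide +kernel

theorem ok_b4_4 : okChunk repB 59 500 b4_4 zb4_4 = true := by decide +kernel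

theorem ok_b4_5 : okChunk repB 59 500 b4_5 zb4_5 = true := by decide +kernel

theorem ok_b4_6 : okChunk repB 59 500 b4_6 zb4_6 = true := by decide +kernel

theorem ok_b4_7 : okChunk repB 59 500 b4_7 zb4_7 = true := by decide +kernel

theorem ok_b4_8 : okChunk repB 59 500 b4_8 zb4_8 = true := by decide +kernel

end Pool.Agent.Helper25.EN
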