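import Pool.Agent.Helper25.TY.SChunk
import Pool.Agent.Gen.TY.EN.B
import Pool.Agent.Helper25.EN.ZB

/-!
MP_8ee768_co, project TH-Y': kernel check of the entries with pair link REP(B), part 2.
-/

set_option autoImplicit false
set_option maxRecDepth 100000

namespace Pool.Agent.Helper25.EN

open Pool.Agent.Helper25.TY Pool.Agent.Gen.TY.EN
open Pool.Agent.Helper67.TY (repB)

theorem ok_b4_9 : okChunk repB 59 500 b4_9 zb4_9 = true := by decide +kernel

theorem ok_b4_10 : okChunk repB 59 500 b4_10 zb4_10 = true := by decide +kernel

theorem ok_b4_11 : okChunk repB 59 500 b4_11 zb4_11 = true := by decide +kernel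

theorem ok_b4_12 : okChunk repB 59 500 b4_12 zb4_12 = true := by decide +kernel

theorem ok_b4_13 : okChunk repB 59 500 b4_13 zb4_13 = true := by decide +kernel

theorem ok_b4_14 : okChunk repB 59 500 b4_14 zb4_14 = true := by decide +kernel

end Pool.Agent.Helper25.EN
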