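import Pool.Agent.Helper25.TY.SChunk
import Pool.Agent.Gen.TY.EN.B
import Pool.Agent.Helper25.EN.ZB

/-!
MP_8ee768_co, project TH-Y': kernel check of the entries with pair link REP(B), part 3.
-/

set_option autoImplicit false
set_option maxRecDepth 100000

namespace Pool.Agent.Helper25.EN

open Pool.Agent.Helper25.TY Pool.Agent.Gen.TY.EN
open Pool.Agent.Helper67.TY (repB)

theorem ok_b4_15 : okChunk repB 59 500 b4_15 zb4_15 = true := by decide +kernel

theorem ok_b4_16 : okChunk repB 59 500 b4_16 zb4_16 = true := by decide +kernel

theorem ok_b4_17 : okChunk repB 59 500 b4_17 zb4_17 = true := by decide +kernel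

theorem ok_b4_18 : okChunk repB 59 500 b4_18 zb4_18 = true := by decide +kernel

theorem ok_b4_19 : okChunk repB 59 500 b4_19 zb4_19 = true := by decide +kernel

theorem ok_b4_20 : okChunk repB 59 167 b4_20 zb4_20 = true := by decide +kernel

end Pool.Agent.Helper25.EN
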