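import Pool.Agent.Helper25.EN.Tab
import Pool.Agent.Gen.TY.EN.Roots

/-!
MP_8ee768_co, project TH-Y', stage S: every entry with `MM = 0, 2` can be moved to a root by an
automorphism of the pair link or is not reduced.
-/

set_option autoImplicit false
set_option maxRecDepth 100000

namespace Pool.Agent.Helper25.EN

open Pool.Agent.Helper25.TY
open Pool.Agent.Gen.TY.EN (rA0 rA2 rB0 rB2 a0_0 a2_0 a2_1 b0_0 b2_0 b2_1)
open Pool.Agent.Helper67.TY (repA repB autA autB)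

def ka0_0 : List (ℕ × ℕ × ℕ) := [
  (0, 0, 0), (0, 1, 0), (0, 2, 0), (0, 3, 0), (1, 0, 0), (1, 2, 0), (1, 1, 0), (0, 4, 0), (1, 4, 0), (0, 5, 0), (0, 6, 0), (0, 7, 0), (1, 7, 0), (0, 8, 0), (0, 9, 0), (0, 10, 0), (0, 11, 0), (0, 12, 0), (0, 13, 0), (0, 14, 0), (0, 15, 0), (1, 10, 0), (1, 11, 0), (1, 12, 0), (1, 13, 0), (1, 14, 0), (1, 15, 0), (2, 4, 0), (2, 5, 0), (4, 4, 0), (2, 6, 0), (2, 7, 0), (2, 8, 0), (4, 7, 0), (2, 9, 0), (4, 10, 0), (4, 11, 0), (2, 11, 0), (2, 10, 0), (2, 12, 0), (2, 15, 0), (2, 14, 0), (2, 13, 0), (4, 12, 0), (4, 13, 0), (4, 14, 0), (4, 15, 0), (3, 11, 0), (3, 10, 0), (3, 12, 0), (3, 15, 0), (3, 14, 0), (3, 13, 0), (3, 5, 0), (3, 4, 0), (5, 4, 0), (3, 6, 0), (3, 8, 0), (3, 7, 0), (5, 7, 0), (3, 9, 0), (5, 11, 0), (5, 10, 0), (5, 12, 0), (5, 15, 0), (5, 14, 0), (5, 13, 0)]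

theorem rt_a0_0 : rootChk repA autA rA0 a0_0 ka0_0 = true := by decide +kernel

theorem rootA0 : RootE repA rA0 (allE cA0) := by
  intro e he
  simp only [allE, cA0, List.map_cons, List.map_nil, List.flatten_cons, List.flatten_nil,
    List.append_nil] at he
  exact rootChk_sound rt_a0_0 e he

def ka2_0 : List (ℕ × ℕ × ℕ) := [
  (99, 0, 1541), (99, 0, 1541), (99, 0, 1541), (99, 0, 1541), (99, 0, 1539), (99, 0, 1539), (99, 0, 1539), (99, 0, 1539), (99, 0, 1539), (99, 0, 1542), (99, 0, 1542), (99, 0, 1542), (99, 0, 1542), (99, 0, 1542), (99, 0, 1539), (99, 0, 1539), (99, 0, 1539), (99, 0, 1539), (99, 0, 1542), (99, 0, 1542), (99, 0, 1542), (99, 0, 1542), (99, 0, 1542), (99, 0, 1542), (0, 0, 0), (0, 1, 0), (0, 2, 0), (99, 0, 1542), (99, 0, 1542), (99, 0, 1542), (99, 0, 1542), (99, 0, 1542), (99, 0, 1541), (99, 0, 1541), (99, 0, 1541), (99, 0, 1541), (99, 0, 1541), (99, 0, 1542), (99,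 0, 1542), (99, 0, 1542), (99, 0, 1542), (99, 0, 1542), (99, 0, 1542), (1, 0, 0), (1, 2, 0), (1, 1, 0), (99, 0, 1541), (99, 0, 1541), (99, 0, 1539), (99, 0, 1539), (99, 0, 1541), (99, 0, 1541), (99, 0, 1541), (99, 0, 1541), (99, 0, 1539), (99, 0, 1539), (99, 0, 1539), (99, 0, 1539), (99, 0, 1539), (99, 0, 1539), (99, 0, 1539), (99, 0, 1539), (99, 0, 1542), (99, 0, 1542), (99, 0, 1542), (99, 0, 1542), (99, 0, 1542), (99, 0, 1541), (99, 0, 1541), (99, 0, 1541), (99, 0, 1541), (99, 0, 1542), (99, 0, 1542), (99, 0, 1542), (99, 0, 1542), (99, 0, 1299), (99, 0, 1165), (99, 0, 1166), (99, 0, 151), (99, 0, 79), (99, 0, 295), (99, 0, 279), (99, 0, 143), (99, 0, 103), (99, 0, 1123), (99, 0, 1125), (0, 3, 0), (0, 4, 0), (99, 0, 1302), (4, 4, 0), (4, 3, 0), (99, 0, 781), (99, 0, 782), (99, 0, 595), (99, 0, 271), (99, 0, 87), (99, 0, 167), (99, 0, 598), (99, 0, 675), (99, 0, 677), (99, 0, 496),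 (99, 0, 488), (99, 0, 472), (99, 0, 199), (99, 0, 327), (99, 0, 391), (3, 4, 0), (3, 3, 0), (99, 0, 1299), (99, 0, 151), (99, 0, 79), (99, 0, 295), (99, 0, 1165), (99, 0, 1166), (99, 0, 279), (99, 0, 143), (99, 0, 103), (99, 0, 1123), (99, 0, 1125), (99, 0, 781), (99, 0, 782), (99, 0, 595), (99, 0, 271), (99, 0, 87), (99, 0, 167), (99, 0, 598), (99, 0, 675), (99, 0, 677), (1, 3, 0), (1, 4, 0), (2, 3, 0), (2, 4, 0), (5, 4, 0), (5, 3, 0), (99, 0, 1302), (99, 0, 1592), (99, 0, 1539), (99, 0, 1541), (99, 0, 1541), (99, 0, 1541), (99, 0, 1539), (99, 0, 1539), (99, 0, 1539), (99, 0, 1541), (99, 0, 1539), (99, 0, 1539), (99, 0, 436), (99, 0, 472), (99, 0, 372), (99, 0, 248), (99, 0, 426), (99, 0, 362), (99, 0, 248), (99, 0, 472), (99, 0, 409), (99, 0, 345), (99, 0, 248), (99, 0, 488), (99, 0, 248), (99, 0, 775), (99, 0, 775), (99, 0, 775), (99, 0, 775), (0, 5, 0), (0, 6, 0), (0, 7, 0),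 (0, 8, 0), (0, 9, 0), (0, 10, 0), (99, 0, 496), (99, 0, 488), (99, 0, 345), (99, 0, 217), (99, 0, 217), (99, 0, 217), (99, 0, 217), (99, 0, 345), (99, 0, 409), (99, 0, 841), (99, 0, 849), (0, 11, 0), (99, 0, 1287), (99, 0, 1287), (99, 0, 1287), (99, 0, 1287), (0, 12, 0), (99, 0, 488), (99, 0, 472), (99, 0, 440), (99, 0, 372), (99, 0, 248), (99, 0, 372), (99, 0, 651), (99, 0, 651), (99, 0, 372), (99, 0, 244), (99, 0, 472), (99, 0, 440), (99, 0, 244), (99, 0, 372), (99, 0, 244), (99, 0, 244), (99, 0, 484), (0, 13, 0), (99, 0, 692), (99, 0, 724), (99, 0, 1140), (99, 0, 1332), (99, 0, 1332), (0, 14, 0), (0, 15, 0), (99, 0, 1364), (99, 0, 1364), (99, 0, 1380), (1, 14, 0), (99, 0, 1417), (1, 10, 0), (1, 13, 0), (1, 12, 0), (99, 0, 376), (99, 0, 426), (99, 0, 472), (99, 0, 496), (99, 0, 248), (99, 0, 426), (99, 0, 682), (99, 0, 426), (99, 0, 234), (99, 0, 234), (99, 0, 376), (99, 0, 426),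 (99, 0, 472), (99, 0, 234), (99, 0, 234), (99, 0, 482), (99, 0, 810), (99, 0, 810), (99, 0, 906), (99, 0, 906), (99, 0, 930), (99, 0, 1109), (99, 0, 1109), (99, 0, 1130), (1, 15, 0), (99, 0, 1226), (1, 5, 0), (1, 6, 0), (1, 7, 0), (1, 8, 0), (1, 9, 0), (0, 16, 0), (0, 17, 0), (1, 17, 0), (99, 0, 1425), (1, 11, 0), (99, 0, 1543), (99, 0, 1543), (99, 0, 1543), (99, 0, 1543), (99, 0, 1547), (99, 0, 1547), (99, 0, 1547), (99, 0, 1547), (99, 0, 1557), (99, 0, 1557), (99, 0, 1557), (99, 0, 1557), (0, 18, 0), (1, 18, 0), (0, 19, 0), (1, 19, 0), (99, 0, 1574), (99, 0, 1574), (99, 0, 1574), (99, 0, 1574), (99, 0, 1541), (99, 0, 1541), (99, 0, 1541), (99, 0, 1541), (99, 0, 1541), (99, 0, 1541), (2, 0, 0), (2, 2, 0), (2, 1, 0), (99, 0, 1541), (99, 0, 1541), (99, 0, 1541), (99, 0, 1541), (99, 0, 1541), (99, 0, 1541), (99, 0, 1539), (99, 0, 1539), (99, 0, 1539), (99, 0, 1539), (99, 0, 1542),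 (99, 0, 1542), (99, 0, 1542), (2, 18, 0), (99, 0, 1539), (99, 0, 1539), (99, 0, 1542), (2, 19, 0), (4, 19, 0), (4, 18, 0), (99, 0, 436), (99, 0, 472), (99, 0, 244), (99, 0, 376), (99, 0, 426), (99, 0, 376), (99, 0, 234), (99, 0, 472), (99, 0, 409), (99, 0, 376), (99, 0, 217), (99, 0, 488), (99, 0, 376), (99, 0, 647), (99, 0, 647), (99, 0, 647), (99, 0, 647), (4, 10, 0), (4, 5, 0), (4, 9, 0), (4, 6, 0), (4, 7, 0), (4, 8, 0), (99, 0, 1159), (99, 0, 1159), (99, 0, 1159), (99, 0, 1159), (2, 7, 0), (2, 6, 0), (2, 8, 0), (2, 9, 0), (2, 5, 0), (2, 17, 0), (2, 16, 0), (4, 17, 0), (2, 10, 0), (99, 0, 496), (99, 0, 362), (99, 0, 234), (99, 0, 234), (99, 0, 234), (99, 0, 472), (99, 0, 234), (99, 0, 362), (99, 0, 426), (99, 0, 906), (4, 11, 0), (99, 0, 930), (4, 14, 0), (4, 15, 0), (99, 0, 1226), (2, 11, 0), (99, 0, 1250), (4, 12, 0), (99, 0, 248), (99, 0, 409), (99, 0, 376), (99, 0, 409),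 (99, 0, 488), (99, 0, 496), (99, 0, 614), (99, 0, 614), (99, 0, 1177), (2, 12, 0), (99, 0, 472), (99, 0, 488), (99, 0, 376), (99, 0, 244), (99, 0, 440), (99, 0, 244), (99, 0, 372), (99, 0, 244), (99, 0, 488), (99, 0, 244), (99, 0, 244), (99, 0, 440), (99, 0, 244), (99, 0, 372), (99, 0, 468), (99, 0, 628), (99, 0, 692), (99, 0, 692), (99, 0, 724), (99, 0, 740), (99, 0, 740), (2, 15, 0), (99, 0, 1291), (99, 0, 1291), (99, 0, 1305), (2, 13, 0), (2, 14, 0), (99, 0, 409), (99, 0, 345), (99, 0, 248), (99, 0, 345), (99, 0, 409), (99, 0, 345), (99, 0, 345), (99, 0, 465), (99, 0, 488), (99, 0, 601), (4, 13, 0), (99, 0, 841), (99, 0, 1177), (99, 0, 1332), (99, 0, 1380), (99, 0, 1417), (99, 0, 1417), (99, 0, 1425), (99, 0, 1543), (99, 0, 1543), (99, 0, 1543), (99, 0, 1543), (99, 0, 1547), (99, 0, 1547), (99, 0, 1547), (99, 0, 1547), (99, 0, 1557), (99, 0, 1557), (99, 0, 1557), (99, 0, 1557),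 (99, 0, 1574), (99, 0, 1574), (99, 0, 1574), (99, 0, 1574), (4, 0, 0), (4, 2, 0), (4, 1, 0), (99, 0, 1539), (99, 0, 1539), (99, 0, 1539), (99, 0, 1539), (99, 0, 1539), (99, 0, 1539), (99, 0, 1539), (99, 0, 1539), (99, 0, 1539), (99, 0, 1539), (99, 0, 1539), (99, 0, 1539), (99, 0, 1541), (99, 0, 1541), (99, 0, 1541), (99, 0, 1541), (99, 0, 1541), (3, 19, 0), (5, 19, 0), (99, 0, 1542), (5, 18, 0), (99, 0, 1541), (3, 18, 0), (99, 0, 1542), (99, 0, 1542), (99, 0, 1542), (3, 15, 0), (3, 14, 0), (3, 12, 0), (99, 0, 234), (99, 0, 440), (99, 0, 472), (99, 0, 496), (99, 0, 376), (99, 0, 234), (99, 0, 789), (99, 0, 789), (99, 0, 1130), (99, 0, 426), (99, 0, 234), (99, 0, 234), (99, 0, 234), (99, 0, 496), (99, 0, 376), (99, 0, 234), (99, 0, 426), (99, 0, 458), (99, 0, 810), (3, 13, 0), (99, 0, 930), (99, 0, 1130), (99, 0, 1194), (99, 0, 1226), (99, 0, 1250), (99, 0, 1250), (5, 14, 0), (99,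 0, 372), (99, 0, 244), (99, 0, 472), (99, 0, 440), (99, 0, 440), (99, 0, 472), (99, 0, 362), (99, 0, 234), (99, 0, 440), (99, 0, 488), (99, 0, 345), (99, 0, 217)]

theorem rt_a2_0 : rootChk repA autA rA2 a2_0 ka2_0 = true := by decide +kernel

def ka2_1 : List (ℕ × ℕ × ℕ) := [
  (99, 0, 440), (99, 0, 583), (99, 0, 583), (99, 0, 583), (99, 0, 583), (3, 7, 0), (3, 6, 0), (3, 8, 0), (3, 9, 0), (3, 5, 0), (3, 10, 0), (99, 0, 1095), (99, 0, 1095), (99, 0, 1095), (99, 0, 1095), (99, 0, 372), (99, 0, 244), (99, 0, 244), (99, 0, 244), (99, 0, 488), (99, 0, 472), (99, 0, 244), (99, 0, 372), (99, 0, 436), (3, 11, 0), (99, 0, 724), (99, 0, 740), (5, 11, 0), (5, 10, 0), (99, 0, 1364), (5, 6, 0), (5, 7, 0), (5, 8, 0), (5, 9, 0), (5, 5, 0), (3, 17, 0), (5, 17, 0), (3, 16, 0), (5, 12, 0), (99, 0, 345), (99, 0, 440), (99, 0, 248), (99, 0, 345), (99, 0, 488), (99, 0, 496), (99, 0, 601), (99, 0,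 793), (99, 0, 409), (99, 0, 345), (99, 0, 345), (99, 0, 345), (99, 0, 248), (99, 0, 345), (99, 0, 409), (99, 0, 457), (99, 0, 496), (99, 0, 601), (99, 0, 841), (99, 0, 849), (99, 0, 849), (99, 0, 1177), (99, 0, 1190), (99, 0, 1190), (5, 13, 0), (5, 15, 0), (99, 0, 1380), (99, 0, 1425), (99, 0, 1543), (99, 0, 1543), (99, 0, 1543), (99, 0, 1543), (99, 0, 1547), (99, 0, 1547), (99, 0, 1547), (99, 0, 1547), (99, 0, 1557), (99, 0, 1557), (99, 0, 1557), (99, 0, 1557), (99, 0, 1574), (99, 0, 1574), (99, 0, 1574), (99, 0, 1574), (3, 0, 0), (3, 2, 0), (3, 1, 0), (5, 0, 0), (5, 2, 0), (5, 1, 0)]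

theorem rt_a2_1 : rootChk repA autA rA2 a2_1 ka2_1 = true := by decide +kernel

theorem rootA2 : RootE repA rA2 (allE cA2) := by
  intro e he
  simp only [allE, cA2, List.map_cons, List.map_nil, List.flatten_cons, List.flatten_nil,
    List.append_nil, List.mem_append] at he
  rcases he with he | he
  · exact rootChk_sound rt_a2_0 e he
  · exact rootChk_sound rt_a2_1 e he

def kb0_0 : List (ℕ × ℕ × ℕ) := [
  (0, 0, 0), (4, 0, 0), (0, 1, 0), (1, 0, 0), (3, 0, 0), (8, 1, 0), (5, 0, 0), (2, 1, 0), (2, 0, 0), (0, 2, 0), (0, 3, 0), (1, 3, 0), (0, 4, 0), (3, 3, 0), (2, 4, 0), (2, 3, 0), (0, 5, 0), (4, 5, 0), (0, 6, 0), (0, 7, 0), (0, 8, 0), (0, 9, 0), (4, 7, 0), (4, 9, 0), (4, 8, 0), (0, 10, 0), (0, 11, 0), (0, 12, 0), (0, 13, 0), (0, 14, 0), (4, 11, 0), (4, 14, 0), (4, 13, 0), (4, 12, 0), (1, 7, 0), (5, 7, 0), (1, 6, 0), (1, 5, 0), (5, 8, 0), (1, 9, 0), (5, 5, 0), (5, 9, 0), (1, 8,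 0), (1, 10, 0), (5, 14, 0), (5, 11, 0), (5, 12, 0), (5, 13, 0), (0, 15, 0), (0, 16, 0), (1, 14, 0), (1, 11, 0), (1, 13, 0), (1, 12, 0), (1, 16, 0), (1, 15, 0), (6, 8, 0), (6, 7, 0), (6, 9, 0), (2, 8, 0), (2, 7, 0), (2, 9, 0), (6, 5, 0), (2, 6, 0), (2, 5, 0), (2, 10, 0), (6, 12, 0), (6, 13, 0), (6, 14, 0), (6, 11, 0), (3, 16, 0), (3, 15, 0), (2, 14, 0), (2, 12, 0), (2, 13, 0), (2, 11, 0), (3, 8, 0), (7, 5, 0), (7, 9, 0), (7, 8, 0), (3, 5, 0), (3, 9, 0), (7, 7, 0), (3, 6, 0), (3, 7, 0), (3, 10, 0), (3, 12, 0), (3, 13, 0), (3, 14, 0), (3, 11, 0), (7, 13, 0), (7, 12, 0), (7, 11, 0), (7, 14, 0), (2, 15, 0), (2, 16, 0), (11, 5, 0), (9, 8, 0), (11, 9, 0), (11, 7, 0), (9, 7, 0), (9, 6, 0), (11, 8, 0), (9, 9, 0), (9, 5, 0), (9, 10, 0), (11, 13, 0), (11, 14, 0), (11, 11, 0), (11, 12, 0), (8, 15, 0), (8, 16, 0), (10, 7, 0), (10, 8, 0), (10, 9, 0), (10, 5, 0), (8, 5, 0), (8, 6, 0), (8, 8, 0),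 (8, 9, 0), (8, 7, 0), (8, 10, 0), (8, 14, 0), (8, 11, 0), (8, 12, 0), (8, 13, 0), (10, 12, 0), (10, 13, 0), (10, 11, 0), (10, 14, 0), (9, 16, 0), (9, 15, 0), (9, 12, 0), (9, 14, 0), (9, 11, 0), (9, 13, 0)]

theorem rt_b0_0 : rootChk repB autB rB0 b0_0 kb0_0 = true := by decide +kernel

theorem rootB0 : RootE repB rB0 (allE cB0) := by
  intro e he
  simp only [allE, cB0, List.map_cons, List.map_nil, List.flatten_cons, List.flatten_nil,
    List.append_nil] at he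
  exact rootChk_sound rt_b0_0 e he

def kb2_0 : List (ℕ × ℕ × ℕ) := [
  (99, 0, 1539), (99, 0, 1539), (99, 0, 1541), (99, 0, 1541), (99, 0, 1541), (99, 0, 1541), (99, 0, 1541), (99, 0, 1539), (0, 0, 0), (11, 0, 0), (99, 0, 1539), (99, 0, 1539), (99, 0, 1539), (99, 0, 1539), (99, 0, 1539), (0, 1, 0), (0, 2, 0), (99, 0, 1539), (7, 0, 0), (4, 0, 0), (99, 0, 1539), (99, 0, 1539), (99, 0, 1539), (99, 0, 1539), (4, 1, 0), (99, 0, 1539), (99, 0, 1539), (99, 0, 1539), (99, 0, 1541), (99, 0, 1541), (99, 0, 1541), (99, 0, 1541), (99, 0, 1542), (4, 2, 0), (99, 0, 1541), (99, 0, 1541), (99, 0, 1539), (99, 0, 1539), (99, 0, 1539), (99, 0, 1539), (0, 3, 0), (6, 0, 0), (5, 0, 0), (0, 4, 0), (5, 4, 0), (4, 4, 0), (1, 4, 0), (4, 3, 0), (99, 0, 1539), (99, 0, 1539), (99, 0, 1539), (99, 0, 1539), (99, 0, 1542), (99, 0, 1542), (1, 0, 0), (10, 0, 0), (3, 2, 0), (9, 2, 0), (9, 0, 0), (2, 0, 0), (99,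 0, 1541), (99, 0, 1541), (99, 0, 1541), (99, 0, 1541), (2, 1, 0), (99, 0, 1541), (6, 3, 0), (8, 0, 0), (3, 0, 0), (99, 0, 1539), (99, 0, 1539), (99, 0, 1539), (99, 0, 1539), (99, 0, 1542), (99, 0, 1542), (99, 0, 1541), (99, 0, 1541), (99, 0, 1539), (99, 0, 1539), (99, 0, 1539), (99, 0, 1539), (99, 0, 1542), (99, 0, 376), (99, 0, 248), (99, 0, 248), (99, 0, 248), (99, 0, 248), (99, 0, 248), (99, 0, 248), (99, 0, 376), (99, 0, 248), (99, 0, 248), (99, 0, 248), (99, 0, 376), (99, 0, 248), (99, 0, 376), (99, 0, 440), (99, 0, 789), (99, 0, 790), (99, 0, 651), (99, 0, 279), (99, 0, 143), (99, 0, 103), (99, 0, 611), (99, 0, 613), (99, 0, 654), (99, 0, 1315), (99, 0, 1101), (99, 0, 1102), (99, 0, 295), (99, 0, 79), (99, 0, 151), (99, 0, 271), (99, 0, 167), (99, 0, 87), (99, 0, 1171), (99, 0, 1173), (99, 0, 1318), (99, 0, 1317), (99, 0, 653), (99, 0, 654), (99, 0, 611), (99, 0, 143), (99,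 0, 103), (99, 0, 279), (99, 0, 614), (99, 0, 787), (99, 0, 789), (99, 0, 1318), (99, 0, 1171), (99, 0, 271), (99, 0, 167), (99, 0, 87), (99, 0, 295), (99, 0, 151), (99, 0, 79), (99, 0, 1099), (99, 0, 1101), (99, 0, 1174), (99, 0, 1543), (99, 0, 1543), (99, 0, 1543), (99, 0, 1543), (99, 0, 1543), (99, 0, 1543), (99, 0, 1543), (99, 0, 1543), (99, 0, 1543), (99, 0, 1543), (99, 0, 1541), (99, 0, 1541), (99, 0, 1541), (99, 0, 1541), (99, 0, 1541), (99, 0, 1539), (99, 0, 1539), (99, 0, 1539), (99, 0, 1539), (99, 0, 1542), (99, 0, 1542), (99, 0, 1541), (99, 0, 1541), (99, 0, 1539), (99, 0, 1539), (99, 0, 1539), (99, 0, 1539), (99, 0, 1542), (99, 0, 376), (99, 0, 248), (99, 0, 248), (99, 0, 248), (99, 0, 248), (99, 0, 248), (99, 0, 248), (99, 0, 376), (99, 0, 248), (99, 0, 248), (99, 0, 248), (99, 0, 376), (99, 0, 248), (99, 0, 376), (99, 0, 440), (99, 0, 481), (99, 0, 458), (99, 0, 440),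 (99, 0, 376), (99, 0, 218), (99, 0, 376), (99, 0, 364), (99, 0, 124), (99, 0, 376), (99, 0, 241), (99, 0, 376), (99, 0, 440), (99, 0, 472), (99, 0, 696), (99, 0, 936), (99, 0, 1095), (99, 0, 1095), (99, 0, 1095), (99, 0, 1095), (99, 0, 457), (99, 0, 466), (99, 0, 440), (99, 0, 376), (99, 0, 233), (99, 0, 242), (99, 0, 376), (99, 0, 440), (99, 0, 412), (99, 0, 376), (99, 0, 188), (99, 0, 376), (99, 0, 488), (99, 0, 647), (99, 0, 647), (99, 0, 647), (99, 0, 647), (0, 5, 0), (0, 6, 0), (0, 7, 0), (0, 8, 0), (4, 8, 0), (0, 9, 0), (99, 0, 1144), (4, 9, 0), (99, 0, 1368), (99, 0, 376), (99, 0, 248), (99, 0, 248), (99, 0, 248), (99, 0, 248), (99, 0, 248), (99, 0, 248), (99, 0, 376), (99, 0, 248), (99, 0, 248), (99, 0, 248), (99, 0, 376), (99, 0, 248), (99, 0, 376), (99, 0, 440), (99, 0, 856), (99, 0, 484), (99, 0, 433), (99, 0, 242), (99, 0, 248), (99, 0, 122), (99, 0, 313), (99, 0, 248),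 (99, 0, 248), (99, 0, 440), (99, 0, 364), (99, 0, 248), (99, 0, 440), (99, 0, 472), (99, 0, 976), (99, 0, 1063), (99, 0, 1063), (99, 0, 1063), (99, 0, 1063), (0, 10, 0), (99, 0, 440), (99, 0, 376), (99, 0, 244), (99, 0, 488), (99, 0, 472), (99, 0, 244), (99, 0, 779), (99, 0, 779), (1, 9, 0), (99, 0, 1291), (99, 0, 1291), (99, 0, 1448), (99, 0, 468), (99, 0, 370), (99, 0, 241), (99, 0, 248), (99, 0, 185), (99, 0, 314), (99, 0, 248), (99, 0, 412), (99, 0, 248), (99, 0, 376), (99, 0, 248), (99, 0, 376), (99, 0, 472), (99, 0, 535), (99, 0, 535), (99, 0, 535), (99, 0, 535), (5, 9, 0), (5, 8, 0), (1, 8, 0), (1, 5, 0), (1, 6, 0), (1, 7, 0), (1, 10, 0), (99, 0, 244), (99, 0, 244), (99, 0, 376), (99, 0, 440), (99, 0, 472), (99, 0, 488), (99, 0, 779), (99, 0, 779), (99, 0, 1291), (99, 0, 1291), (99, 0, 1504), (99, 0, 1543), (99, 0, 1543), (99, 0, 1543), (99, 0, 1543), (99, 0, 1543), (99,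 0, 1543), (99, 0, 1543), (99, 0, 1543), (99, 0, 1543), (99, 0, 1543), (99, 0, 1543), (99, 0, 1543), (99, 0, 1543), (99, 0, 1543), (99, 0, 1543), (99, 0, 1543), (99, 0, 1543), (99, 0, 1543), (99, 0, 1543), (99, 0, 1543), (99, 0, 1547), (99, 0, 1547), (3, 1, 0), (7, 3, 0), (99, 0, 1795), (99, 0, 1795), (99, 0, 1541), (3, 4, 0), (6, 4, 0), (7, 4, 0), (2, 4, 0), (99, 0, 1541), (8, 4, 0), (11, 4, 0), (10, 4, 0), (9, 4, 0), (99, 0, 1542), (99, 0, 1542), (11, 2, 0), (1, 2, 0), (6, 2, 0), (99, 0, 1539), (99, 0, 1539), (99, 0, 1541), (99, 0, 1541), (99, 0, 1541), (99, 0, 1541), (99, 0, 1539), (99, 0, 1539), (99, 0, 1539), (99, 0, 1539), (99, 0, 1539), (99, 0, 1542), (99, 0, 1542), (99, 0, 1539), (99, 0, 1539), (99, 0, 1539), (99, 0, 1539), (99, 0, 1542), (99, 0, 376), (99, 0, 248), (99, 0, 248), (99, 0, 248), (99, 0, 248), (99, 0, 248), (99, 0, 248), (99, 0, 376), (99, 0, 248), (99, 0, 248),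 (99, 0, 248), (99, 0, 376), (99, 0, 248), (99, 0, 376), (99, 0, 440), (99, 0, 632), (99, 0, 481), (99, 0, 468), (99, 0, 434), (99, 0, 248), (99, 0, 314), (99, 0, 248), (99, 0, 348), (99, 0, 248), (99, 0, 440), (99, 0, 361), (99, 0, 248), (99, 0, 440), (99, 0, 472), (99, 0, 752), (99, 0, 488), (99, 0, 496), (99, 0, 248), (3, 10, 0), (99, 0, 346), (99, 0, 346), (99, 0, 440), (99, 0, 677), (99, 0, 677), (99, 0, 1189), (99, 0, 1189), (99, 0, 1287), (99, 0, 1287), (99, 0, 1287), (99, 0, 1287), (99, 0, 457), (99, 0, 484), (99, 0, 440), (99, 0, 345), (99, 0, 248), (99, 0, 248), (99, 0, 234), (99, 0, 122), (99, 0, 248), (99, 0, 372), (99, 0, 248), (99, 0, 440), (99, 0, 472), (99, 0, 583), (99, 0, 583), (99, 0, 583), (99, 0, 583), (6, 8, 0), (2, 8, 0), (2, 5, 0), (2, 6, 0), (2, 7, 0), (6, 9, 0), (99, 0, 1336), (2, 9, 0), (99, 0, 376), (99, 0, 248), (99, 0, 248), (99, 0, 248), (99, 0, 248),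 (99, 0, 248), (99, 0, 248), (99, 0, 376), (99, 0, 248), (99, 0, 248), (99, 0, 248), (99, 0, 376), (99, 0, 248), (99, 0, 376), (99, 0, 440), (99, 0, 466), (99, 0, 376), (99, 0, 248), (99, 0, 434), (99, 0, 248), (99, 0, 376), (99, 0, 345), (99, 0, 313), (99, 0, 248), (99, 0, 220), (99, 0, 188), (99, 0, 248), (99, 0, 488), (99, 0, 936), (99, 0, 968), (99, 0, 1047), (99, 0, 1047), (99, 0, 1047), (99, 0, 1047), (7, 9, 0), (99, 0, 458), (99, 0, 440), (99, 0, 376), (99, 0, 234), (99, 0, 376), (99, 0, 440), (99, 0, 409), (99, 0, 376), (99, 0, 185), (99, 0, 348), (99, 0, 124), (99, 0, 376), (99, 0, 488), (99, 0, 527), (99, 0, 527), (99, 0, 527), (99, 0, 527), (3, 9, 0), (3, 8, 0), (7, 8, 0), (3, 5, 0), (3, 6, 0), (3, 7, 0), (99, 0, 1264), (99, 0, 496), (99, 0, 488), (2, 10, 0)]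

theorem rt_b2_0 : rootChk repB autB rB2 b2_0 kb2_0 = true := by decide +kernel

def kb2_1 : List (ℕ × ℕ × ℕ) := [
  (99, 0, 248), (99, 0, 346), (99, 0, 440), (99, 0, 346), (99, 0, 677), (99, 0, 677), (99, 0, 1189), (99, 0, 1189), (99, 0, 1448), (99, 0, 1488), (99, 0, 1543), (99, 0, 1543), (99, 0, 1543), (99, 0, 1543), (99, 0, 1543), (99, 0, 1543), (99, 0, 1543), (99, 0, 1543), (99, 0, 1543), (99, 0, 1543), (99, 0, 1543), (99, 0, 1543), (99, 0, 1543), (99, 0, 1543), (99, 0, 1543), (99, 0, 1543), (99, 0, 1543), (99, 0, 1543), (99, 0, 1543), (99, 0, 1543), (99, 0, 1573), (99, 0, 1573), (5, 3, 0), (1, 1, 0), (99, 0, 1669), (99, 0, 1669), (2, 2, 0), (7, 2, 0), (5, 2, 0), (99, 0, 1539), (99, 0, 1541), (99, 0, 1541), (99, 0, 1539), (99, 0, 1539), (99, 0, 1539), (99, 0, 1539), (99, 0, 1539), (99, 0, 1539), (99, 0, 1541), (99, 0, 1541), (99, 0, 1541), (99, 0, 1541), (99, 0, 1541), (99,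 0, 1539), (99, 0, 1539), (99, 0, 1539), (99, 0, 1539), (99, 0, 376), (99, 0, 248), (99, 0, 248), (99, 0, 248), (99, 0, 248), (99, 0, 248), (99, 0, 248), (99, 0, 376), (99, 0, 248), (99, 0, 248), (99, 0, 248), (99, 0, 376), (99, 0, 248), (99, 0, 376), (99, 0, 440), (99, 0, 752), (99, 0, 457), (99, 0, 440), (99, 0, 376), (99, 0, 217), (99, 0, 428), (99, 0, 376), (99, 0, 188), (99, 0, 362), (99, 0, 122), (99, 0, 376), (99, 0, 376), (99, 0, 440), (99, 0, 472), (99, 0, 992), (99, 0, 1039), (99, 0, 1039), (99, 0, 1039), (99, 0, 1039), (99, 0, 496), (99, 0, 248), (99, 0, 376), (8, 10, 0), (99, 0, 425), (99, 0, 472), (99, 0, 425), (99, 0, 598), (99, 0, 598), (99, 0, 1110), (99, 0, 1110), (9, 9, 0), (99, 0, 376), (99, 0, 248), (99, 0, 248), (99, 0, 248), (99, 0, 248), (99, 0, 248), (99, 0, 248), (99, 0, 376), (99, 0, 248), (99, 0, 248), (99, 0, 248), (99, 0, 376), (99, 0, 248), (99, 0, 376),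 (99, 0, 440), (99, 0, 458), (99, 0, 468), (99, 0, 426), (99, 0, 376), (99, 0, 248), (99, 0, 436), (99, 0, 248), (99, 0, 376), (99, 0, 248), (99, 0, 217), (99, 0, 185), (99, 0, 248), (99, 0, 488), (99, 0, 824), (99, 0, 856), (99, 0, 1159), (99, 0, 1159), (99, 0, 1159), (99, 0, 1159), (99, 0, 1208), (99, 0, 466), (99, 0, 484), (99, 0, 369), (99, 0, 248), (99, 0, 313), (99, 0, 248), (99, 0, 410), (99, 0, 248), (99, 0, 376), (99, 0, 428), (99, 0, 248), (99, 0, 376), (99, 0, 472), (99, 0, 775), (99, 0, 775), (99, 0, 775), (99, 0, 775), (10, 8, 0), (8, 6, 0), (8, 5, 0), (8, 7, 0), (8, 8, 0), (8, 9, 0), (99, 0, 1264), (99, 0, 472), (99, 0, 248), (99, 0, 376), (9, 10, 0), (99, 0, 425), (99, 0, 425), (99, 0, 496), (99, 0, 598), (99, 0, 598), (99, 0, 1110), (99, 0, 1110), (99, 0, 481), (99, 0, 440), (99, 0, 248), (99, 0, 426), (99, 0, 314), (99, 0, 248), (99, 0, 236), (99, 0, 124), (99, 0,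 248), (99, 0, 369), (99, 0, 248), (99, 0, 440), (99, 0, 472), (99, 0, 551), (99, 0, 551), (99, 0, 551), (99, 0, 551), (11, 9, 0), (9, 8, 0), (11, 8, 0), (9, 6, 0), (9, 5, 0), (9, 7, 0), (99, 0, 1368), (10, 9, 0), (99, 0, 1480), (99, 0, 1543), (99, 0, 1543), (99, 0, 1543), (99, 0, 1543), (99, 0, 1543), (99, 0, 1543), (99, 0, 1543), (99, 0, 1543), (99, 0, 1543), (99, 0, 1543), (99, 0, 1543), (99, 0, 1543), (99, 0, 1543), (99, 0, 1543), (99, 0, 1543), (99, 0, 1543), (99, 0, 1543), (99, 0, 1543), (99, 0, 1543), (99, 0, 1543), (99, 0, 1558), (99, 0, 1558), (1, 3, 0), (5, 1, 0), (99, 0, 1606), (99, 0, 1606), (10, 2, 0), (8, 2, 0)]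

theorem rt_b2_1 : rootChk repB autB rB2 b2_1 kb2_1 = true := by decide +kernel

theorem rootB2 : RootE repB rB2 (allE cB2) := by
  intro e he
  simp only [allE, cB2, List.map_cons, List.map_nil, List.flatten_cons, List.flatten_nil,
    List.append_nil, List.mem_append] at he
  rcases he with he | he
  · exact rootChk_sound rt_b2_0 e he
  · exact rootChk_sound rt_b2_1 e he

end Pool.Agent.Helper25.EN
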